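import Pool.Agent.Work.MP_40506d_al.CX.Final
import Pool.Agent.Work.MP_40506d_al.CX.Vanish

/-!
# MP_40506d_al, Q1: the answer is no

There are rigidly-compactly generated tensor triangulated categories `T`, `S` with weakly
noetherian spectra, a geometric functor `F : T ⥤ S` whose right adjoint is conservative, such that
`S` satisfies the local-to-global principle, and an object `t` of `T` with `Supp t ⊆ im φ` which
does not satisfy the local-to-global principle.
-/

open CategoryTheory CategoryTheory.Limits CategoryTheory.MonoidalCategory
  CategoryTheory.Pretriangulated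

open MP40506

namespace Pool.Agent.Results.MP_40506d_al.Answer

/-- Q1 is false. -/
theorem result :
    ¬ ∀ (T : Type 1) [Category.{0} T] [HasZeroObject T] [HasShift T ℤ] [Preadditive T]
      [∀ n : ℤ, (shiftFunctor T n).Additive] [Pretriangulated T] [IsTriangulated T]
      [MonoidalCategory T] [SymmetricCategory T] [MonoidalPreadditive T] [HasCoproducts.{0} T]
      [RCG T]
      (S : Type 1) [Category.{0} S] [HasZeroObject S] [HasShift S ℤ] [Preadditive S]
      [∀ n : ℤ, (shiftFunctor S n).Additive] [Pretriangulated S] [IsTriangulated S]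
      [MonoidalCategory S] [SymmetricCategory S] [MonoidalPreadditive S] [HasCoproducts.{0} S]
      [RCG S]
      (F : T ⥤ S) [F.Braided] [F.CommShift ℤ] [F.IsTriangulated]
      [∀ J : Type, PreservesColimitsOfShape (Discrete J) F],
      TTCompat T → TTCompat S →
      (∀ Y : S, (∀ (X : T) (f : F.obj X ⟶ Y), f = 0) → IsZero Y) →
      WeaklyNoetherian T → WeaklyNoetherian S → LTG S →
      ∀ t : T, Supp t ⊆ Set.range (spcMap F) → LTGAt t := by
  obtain ⟨D, hWN, Z, hZ, hs⟩ := CX.exists_example
  exact CX.not_Q1_of hWN Z hZ hs

end Pool.Agent.Results.MP_40506d_al.Answer
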