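import Pool.Agent.Work.MP_40506d_al.Detect

open CategoryTheory CategoryTheory.Limits CategoryTheory.MonoidalCategory
  CategoryTheory.Pretriangulated MP40506

universe v u u'

namespace Pool.Agent.Results.MP_40506d_al.Criterion

/-- Let `F : T ⥤ S` be a geometric functor, suppose that `S` satisfies the local-to-global
principle and let `t` be an object whose support lies in the image of the map on spectra. Then
`t` satisfies the local-to-global principle if and only if the support detects the vanishing of
the objects `z ⊗ t`. -/
theorem result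
    {T : Type u} [Category.{v} T] [HasZeroObject T] [HasShift T ℤ] [Preadditive T]
    [∀ n : ℤ, (shiftFunctor T n).Additive] [Pretriangulated T] [IsTriangulated T]
    [MonoidalCategory T] [SymmetricCategory T] [MonoidalPreadditive T] [HasCoproducts.{v} T]
    [RCG T]
    {S : Type u'} [Category.{v} S] [HasZeroObject S] [HasShift S ℤ] [Preadditive S]
    [∀ n : ℤ, (shiftFunctor S n).Additive] [Pretriangulated S] [IsTriangulated S]
    [MonoidalCategory S] [SymmetricCategory S] [MonoidalPreadditive S] [HasCoproducts.{v} S]
    [RCG S]
    (F : T ⥤ S) [F.Monoidal] [F.CommShift ℤ] [F.IsTriangulated]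
    [∀ J : Type v, PreservesColimitsOfShape (Discrete J) F]
    (hT : WeaklyNoetherian T) (hS : WeaklyNoetherian S) (hLTG : LTG S)
    (t : T) (ht : Supp t ⊆ Set.range (spcMap F)) :
    LTGAt t ↔ ∀ z : T, Supp (z ⊗ t) = ∅ → IsZero (z ⊗ t) :=
  ⟨detectsAt_of_ltgAt, ltgAt_of_detectsAt F hT hS hLTG ht⟩

end Pool.Agent.Results.MP_40506d_al.Criterion
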