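import Pool.Agent.Work.MP_40506d_al.Detect

open CategoryTheory CategoryTheory.Limits CategoryTheory.MonoidalCategory
  CategoryTheory.Pretriangulated MP40506

universe v u

namespace Pool.Agent.Results.MP_40506d_al.DualScattered

/-- If the spectrum of `T` is weakly noetherian then `T` satisfies the local-to-global principle
if and only if the spectrum is scattered for the Hochster dual topology. -/
theorem result
    {T : Type u} [Category.{v} T] [HasZeroObject T] [HasShift T ℤ] [Preadditive T]
    [∀ n : ℤ, (shiftFunctor T n).Additive] [Pretriangulated T] [IsTriangulated T]
    [MonoidalCategory T] [SymmetricCategory T] [MonoidalPreadditive T] [HasCoproducts.{v} T]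
    [RCG T]
    (hT : WeaklyNoetherian T) : LTG T ↔ DualScattered T :=
  ⟨dualScattered_of_ltg hT, ltg_of_dualScattered⟩

end Pool.Agent.Results.MP_40506d_al.DualScattered
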