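import Pool.Agent.Work.MP_40506d_al.Detect

open CategoryTheory CategoryTheory.Limits CategoryTheory.MonoidalCategory
  CategoryTheory.Pretriangulated MP40506

universe v u u'

namespace Pool.Agent.Results.MP_40506d_al.Surjective

/-- Let `F : T ⥤ S` be a geometric functor and suppose that `S` satisfies the local-to-global
principle. Then every object `t` of `T` whose stalks vanish at all points outside of the image of
the map on spectra satisfies the local-to-global principle. In particular `T` satisfies the
local-to-global principle if the map on spectra is surjective. -/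
theorem result
    {T : Type u} [Category.{v} T] [HasZeroObject T] [HasShift T ℤ] [Preadditive T]
    [∀ n : ℤ, (shiftFunctor T n).Additive] [Pretriangulated T] [IsTriangulated T]
    [MonoidalCategory T] [SymmetricCategory T] [MonoidalPreadditive T] [HasCoproducts.{v} T]
    [RCG T]
    {S : Type u'} [Category.{v} S] [HasZeroObject S] [HasShift S ℤ] [Preadditive S]
    [∀ n : ℤ, (shiftFunctor S n).Additive] [Pretriangulated S] [IsTriangulated S]
    [MonoidalCategory S] [SymmetricCategory S] [MonoidalPreadditive S] [HasCoproducts.{v} S]
    [RCG S]
    (F : T ⥤ S) [F.Monoidal] [F.CommShift ℤ] [F.IsTriangulated]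
    [∀ J : Type v, PreservesColimitsOfShape (Discrete J) F]
    (hT : WeaklyNoetherian T) (hS : WeaklyNoetherian S) (hLTG : LTG S)
    (t : T) (ht : stalkSupp t ⊆ Set.range (spcMap F)) : LTGAt t :=
  ltgAt_of_tip F hT hS hLTG ((Supp_subset_stalkSupp t).trans ht)
    (fun _ hD hD2 => (hD2 (hD.trans ht)).elim)

end Pool.Agent.Results.MP_40506d_al.Surjective
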